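import Mathlib

set_option autoImplicit false
open Set Filter Topology

namespace Pool.Agent.H.MP_086137_an

variable {A : Type} [NormedRing A] [NormedAlgebra ℂ A]

def BAC (A : Type) [NormedRing A] [NormedAlgebra ℂ A] : Prop :=
  ∀ (X : Type) [NormedAddCommGroup X] [NormedSpace ℂ X] [CompleteSpace X]
    (L R : A →L[ℂ] X →L[ℂ] X),
    (∀ a b : A, L (a * b) = (L a).comp (L b)) →
    (∀ a b : A, R (a * b) = (R b).comp (R a)) →
    (∀ a b : A, (L a).comp (R b) = (R b).comp (L a)) →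
    ∀ D : A →L[ℂ] X, (∀ a b : A, D (a * b) = L a (D b) + R b (D a)) →
      ∃ C : ℝ, ∀ F : Finset A, ∀ ε : ℝ, 0 < ε → ∃ ξ : X,
        (∀ a : A, ‖L a ξ - R a ξ‖ ≤ C * ‖a‖) ∧
          ∀ a ∈ F, ‖D a - (L a ξ - R a ξ)‖ < ε

section
variable {X : Type} [NormedAddCommGroup X] [NormedSpace ℂ X]

noncomputable def res (L : A →L[ℂ] X →L[ℂ] X) (Y : Submodule ℂ X)
    (h : ∀ a, ∀ y ∈ Y, L a y ∈ Y) : A →L[ℂ] Y →L[ℂ] Y :=
  LinearMap.mkContinuous₂ (LinearMap.mk₂ ℂ (fun a (y : Y) => (⟨L a y, h a y y.2⟩ : Y))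
    (fun _ _ _ => Subtype.ext (by simp)) (fun _ _ _ => Subtype.ext (by simp))
    (fun _ _ _ => Subtype.ext (by simp)) (fun _ _ _ => Subtype.ext (by simp))) ‖L‖
    fun a y => L.le_opNorm₂ a y

theorem res_apply (L : A →L[ℂ] X →L[ℂ] X) (Y : Submodule ℂ X)
    (h : ∀ a, ∀ y ∈ Y, L a y ∈ Y) (a : A) (y : Y) : (res L Y h a y : X) = L a y := rfl

theorem app [CompleteSpace X] (h : BAC A) (L R : A →L[ℂ] X →L[ℂ] X)
    (hL : ∀ a b x, L (a * b) x = L a (L b x)) (hR : ∀ a b x, R (a * b) x = R b (R a x))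
    (hC : ∀ a b x, L a (R b x) = R b (L a x)) (Y : Submodule ℂ X) (hY : IsClosed (Y : Set X))
    (yL : ∀ a, ∀ y ∈ Y, L a y ∈ Y) (yR : ∀ a, ∀ y ∈ Y, R a y ∈ Y) (T₁ : X)
    (h1 : ∀ a, L a T₁ - R a T₁ ∈ Y) : ∃ C : ℝ, ∀ F : Finset A, ∀ ε : ℝ, 0 < ε → ∃ T : X,
      T₁ - T ∈ Y ∧ (∀ a, ‖L a T - R a T‖ ≤ C * ‖a‖) ∧ ∀ a ∈ F, ‖L a T - R a T‖ < ε := by
  have := hY.completeSpace_coe
  obtain ⟨D, hD⟩ : ∃ D : A →L[ℂ] Y, ∀ a, (D a : X) = L a T₁ - R a T₁ :=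
    ⟨(L.flip T₁ - R.flip T₁).codRestrict Y h1, fun _ => rfl⟩
  obtain ⟨C, hC'⟩ := h Y (res L Y yL) (res R Y yR)
    (fun a b => ContinuousLinearMap.ext fun y => Subtype.ext (hL a b y))
    (fun a b => ContinuousLinearMap.ext fun y => Subtype.ext (hR a b y))
    (fun a b => ContinuousLinearMap.ext fun y => Subtype.ext (hC a b y)) D
    (fun a b => Subtype.ext (by
      rw [Submodule.coe_add, res_apply, res_apply, hD, hD, hD, hL, hR, map_sub, map_sub, hC]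
      abel))
  refine ⟨‖D‖ + C, fun F ε hε => ?_⟩
  obtain ⟨ξ, k1, k2⟩ := hC' F ε hε
  have e : ∀ a, L a (T₁ - ξ) - R a (T₁ - ξ) = (D a - (res L Y yL a ξ - res R Y yR a ξ) : Y) :=
    fun a => by
      rw [Submodule.coe_sub, Submodule.coe_sub, res_apply, res_apply, hD, map_sub, map_sub]
      abel
  refine ⟨T₁ - ξ, by simp, fun a => ?_, fun a ha => ?_⟩
  · rw [e, add_mul]
    exact (norm_sub_le (D a) _).trans (add_le_add (D.le_opNorm a) (k1 a))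
  · rw [e]
    exact k2 a ha

end

theorem coords (J : Submodule ℂ A) (hJ : IsClosed (J : Set A)) (hf : FiniteDimensional ℂ (A ⧸ J)) :
    ∃ (d : ℕ) (s : Fin d → A) (l : Fin d → A →L[ℂ] ℂ), (∀ k, ∀ j ∈ J, l k j = 0) ∧
      ∀ y, y - ∑ k, l k y • s k ∈ J := by
  let b := Module.finBasis ℂ (A ⧸ J)
  choose s hs using fun k => J.mkQ_surjective (b k)
  refine ⟨_, s, fun k => (LinearMap.toContinuousLinearMap (b.coord k)).comp
    ⟨J.mkQ, continuous_quot_mk⟩, fun k j hj => ?_, fun y => ?_⟩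
  · simp [(Submodule.Quotient.mk_eq_zero J).2 hj]
  · rw [← Submodule.Quotient.mk_eq_zero, ← J.mkQ_apply, map_sub, map_sum]
    simp only [map_smul, hs]
    exact sub_eq_zero.2 (b.sum_repr _).symm

/-- A multiplier-bounded left approximate identity. -/
def LAI (J : Submodule ℂ A) : Prop := ∃ K : ℝ, ∀ F : Finset A, ∀ ε : ℝ, 0 < ε → ∃ e ∈ J,
  (∀ j ∈ J, ‖e * j‖ ≤ K * ‖j‖) ∧ ∀ j ∈ F, j ∈ J → ‖e * j - j‖ ≤ ε

theorem lai [CompleteSpace A] (h : BAC A) (J : Submodule ℂ A)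
    (hI : ∀ a x : A, x ∈ J → a * x ∈ J ∧ x * a ∈ J) (hJ : IsClosed (J : Set A))
    (Q : A →L[ℂ] A) (Q1 : ∀ j ∈ J, Q j = 0) (Q2 : ∀ y, y - Q y ∈ J) : LAI J := by
  let L : A →L[ℂ] (A →L[ℂ] A) →L[ℂ] (A →L[ℂ] A) :=
    (ContinuousLinearMap.compL ℂ A A A).flip.comp (ContinuousLinearMap.mul ℂ A).flip
  let R : A →L[ℂ] (A →L[ℂ] A) →L[ℂ] (A →L[ℂ] A) :=
    (ContinuousLinearMap.compL ℂ A A A).comp (ContinuousLinearMap.mul ℂ A).flip
  have eL : ∀ a T y, L a T y = T (y * a) := fun _ _ _ => rfl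
  have eR : ∀ a T y, R a T y = T y * a := fun _ _ _ => rfl
  let Y : Submodule ℂ (A →L[ℂ] A) :=
    { carrier := {T | (∀ j ∈ J, T j = 0) ∧ ∀ y, T y ∈ J}
      add_mem' := fun hS hT => ⟨fun j hj => by simp [hS.1 j hj, hT.1 j hj],
        fun y => add_mem (hS.2 y) (hT.2 y)⟩
      zero_mem' := ⟨fun _ _ => rfl, fun _ => zero_mem _⟩
      smul_mem' := fun c _ hT => ⟨fun j hj => by simp [hT.1 j hj],
        fun y => J.smul_mem c (hT.2 y)⟩ }
  have hY : IsClosed (Y : Set (A →L[ℂ] A)) := by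
    change IsClosed {T : A →L[ℂ] A | _ ∧ _}
    simp only [Set.ofPred_and, Set.ofPred_forall]
    exact (isClosed_iInter fun j => isClosed_iInter fun _ => isClosed_eq (by fun_prop)
      continuous_const).inter (isClosed_iInter fun y => hJ.preimage (by fun_prop))
  obtain ⟨C, hC⟩ := app h L R (fun a b T => by ext y; simp only [eL, mul_assoc])
    (fun a b T => by ext y; simp only [eR, mul_assoc]) (fun a b T => by ext y; simp only [eL, eR])
    Y hY (fun a T hT => ⟨fun j hj => hT.1 _ (hI a j hj).2, fun y => hT.2 _⟩)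
    (fun a T hT => ⟨fun j hj => by rw [eR, hT.1 j hj, zero_mul], fun y => (hI a _ (hT.2 y)).2⟩) Q
    fun a => ⟨fun j hj => by simp [eL, eR, Q1 j hj, Q1 _ (hI a j hj).2], fun y => by
      have := sub_mem (hI a _ (Q2 y)).2 (Q2 (y * a))
      rwa [sub_mul, sub_sub_sub_cancel_left] at this⟩
  refine ⟨C * ‖(1 : A)‖ + 1, fun F ε hε => ?_⟩
  obtain ⟨T, k1, k2, k3⟩ := hC F (ε / (‖(1 : A)‖ + 1)) (by positivity)
  have e : ∀ j ∈ J, (1 - T 1) * j - j = (L j T - R j T) 1 := fun j hj => by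
    have := k1.1 j hj
    rw [_root_.sub_apply, Q1 j hj, zero_sub, neg_eq_zero] at this
    rw [_root_.sub_apply, eL, eR, one_mul, this, sub_mul, one_mul]
    abel
  refine ⟨1 - T 1, by simpa using add_mem (Q2 1) (k1.2 1), fun j hj => ?_, fun j hF hj => ?_⟩
  · rw [← sub_add_cancel ((1 - T 1) * j) j, e j hj]
    have := ((L j T - R j T).le_opNorm 1).trans (mul_le_mul_of_nonneg_right (k2 j) (norm_nonneg _))
    linarith [norm_add_le ((L j T - R j T) 1) j]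
  · rw [e j hj]
    have h1 := k3 j hF
    rw [lt_div_iff₀ (by positivity)] at h1
    nlinarith [(L j T - R j T).le_opNorm 1, norm_nonneg (L j T - R j T)]

end Pool.Agent.H.MP_086137_an
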