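import Pool.Agent.H.MP_086137_an.A

set_option autoImplicit false
set_option maxSynthPendingDepth 3
open Set Filter Topology

namespace Pool.Agent.H.MP_086137_an

variable {A : Type} [NormedRing A] [NormedAlgebra ℂ A]

noncomputable def rm : A →L[ℂ] (A →L[ℂ] ℂ) →L[ℂ] (A →L[ℂ] ℂ) :=
  (ContinuousLinearMap.compL ℂ A A ℂ).flip.comp (ContinuousLinearMap.mul ℂ A).flip

theorem rm_apply (a : A) (ψ : A →L[ℂ] ℂ) (y : A) : rm a ψ y = ψ (y * a) := rfl

noncomputable def LL : A →L[ℂ] ((A →L[ℂ] ℂ) →L[ℂ] A) →L[ℂ] ((A →L[ℂ] ℂ) →L[ℂ] A) :=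
  (ContinuousLinearMap.compL ℂ (A →L[ℂ] ℂ) A A).comp (ContinuousLinearMap.mul ℂ A)

noncomputable def RR : A →L[ℂ] ((A →L[ℂ] ℂ) →L[ℂ] A) →L[ℂ] ((A →L[ℂ] ℂ) →L[ℂ] A) :=
  (ContinuousLinearMap.compL ℂ (A →L[ℂ] ℂ) (A →L[ℂ] ℂ) A).flip.comp rm

theorem eL (a : A) (T : (A →L[ℂ] ℂ) →L[ℂ] A) (ψ : A →L[ℂ] ℂ) : LL a T ψ = a * T ψ := rfl
theorem eR (a : A) (T : (A →L[ℂ] ℂ) →L[ℂ] A) (ψ : A →L[ℂ] ℂ) : RR a T ψ = T (rm a ψ) := rfl

theorem app' [CompleteSpace A] (h : BAC A) (Y : Submodule ℂ ((A →L[ℂ] ℂ) →L[ℂ] A))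
    (hY : IsClosed (Y : Set ((A →L[ℂ] ℂ) →L[ℂ] A)))
    (yL : ∀ a, ∀ y ∈ Y, LL a y ∈ Y) (yR : ∀ a, ∀ y ∈ Y, RR a y ∈ Y) (T₁ : (A →L[ℂ] ℂ) →L[ℂ] A)
    (h1 : ∀ a, LL a T₁ - RR a T₁ ∈ Y) : ∃ C : ℝ, ∀ F : Finset A, ∀ ε : ℝ, 0 < ε → ∃ T,
      T₁ - T ∈ Y ∧ (∀ a, ‖LL a T - RR a T‖ ≤ C * ‖a‖) ∧ ∀ a ∈ F, ‖LL a T - RR a T‖ < ε :=
  app h LL RR (fun a b T => ContinuousLinearMap.ext fun ψ => by simp only [eL, mul_assoc])
    (fun a b T => ContinuousLinearMap.ext fun ψ => by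
      simp only [eR]
      congr 1
      ext y
      simp only [rm_apply, mul_assoc])
    (fun a b T => ContinuousLinearMap.ext fun ψ => by simp only [eL, eR]) Y hY yL yR T₁ h1

structure Co (J : Submodule ℂ A) {d : ℕ} (s : Fin d → A) (l : Fin d → A →L[ℂ] ℂ) : Prop where
  id : ∀ a x : A, x ∈ J → a * x ∈ J ∧ x * a ∈ J
  cl : IsClosed (J : Set A)
  van : ∀ k, ∀ j ∈ J, l k j = 0
  sub : ∀ y, y - ∑ k, l k y • s k ∈ J

variable {J : Submodule ℂ A} {d : ℕ} {s : Fin d → A} {l : Fin d → A →L[ℂ] ℂ}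

theorem Co.exp (c : Co J s l) {ψ : A →L[ℂ] ℂ} (h : ∀ j ∈ J, ψ j = 0) :
    ψ = ∑ k, ψ (s k) • l k := by
  ext y
  have := h _ (c.sub y)
  rw [map_sub, sub_eq_zero, map_sum] at this
  rw [this, _root_.sum_apply]
  simp [mul_comm]

theorem Co.piR (c : Co J s l) (a : A) (T : (A →L[ℂ] ℂ) →L[ℂ] A) :
    (∑ k, T (l k) * s k) * a - ∑ k, RR a T (l k) * s k ∈ J := by
  have e : ∀ k, RR a T (l k) = ∑ m, l k (s m * a) • T (l m) := fun k => by
    rw [eR, c.exp (ψ := rm a (l k)) fun j hj => c.van k _ (c.id a j hj).2, map_sum]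
    simp only [map_smul, rm_apply]
  simp only [e, Finset.sum_mul]
  rw [Finset.sum_comm, ← Finset.sum_sub_distrib]
  refine J.sum_mem fun m _ => ?_
  have := (c.id (T (l m)) _ (c.sub (s m * a))).1
  simpa only [mul_sub, Finset.mul_sum, mul_smul_comm, mul_assoc, smul_mul_assoc] using this

theorem Co.sep [CompleteSpace A] (c : Co J s l) (h : BAC A) : ∃ T : (A →L[ℂ] ℂ) →L[ℂ] A,
    ∑ k, T (l k) * s k - 1 ∈ J ∧
      ∀ a ψ, (∀ j ∈ J, ψ j = 0) → (LL a T - RR a T) ψ ∈ J := by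
  let Y : Submodule ℂ ((A →L[ℂ] ℂ) →L[ℂ] A) :=
    { carrier := {T | ∑ k, T (l k) * s k ∈ J}
      add_mem' := fun hS hT => by
        simpa [add_mul, Finset.sum_add_distrib] using add_mem hS hT
      zero_mem' := by simp
      smul_mem' := fun a _ hT => by simpa [Finset.smul_sum] using J.smul_mem a hT }
  obtain ⟨T₁, e1⟩ : ∃ T₁ : (A →L[ℂ] ℂ) →L[ℂ] A, ∀ ψ, T₁ ψ = ψ 1 • (1 : A) :=
    ⟨(ContinuousLinearMap.apply ℂ ℂ (1 : A)).smulRight 1, fun _ => rfl⟩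
  have p1 : ∑ k, T₁ (l k) * s k - 1 ∈ J := by
    simpa [e1] using J.neg_mem (c.sub 1)
  obtain ⟨C, hC⟩ := app' h Y (c.cl.preimage (by fun_prop))
    (fun a T hT => by
      have := (c.id a _ hT).1
      change ∑ k, _ ∈ J
      simpa only [eL, Finset.mul_sum, mul_assoc] using this)
    (fun a T hT => by
      have := sub_mem (c.id a _ hT).2 (c.piR a T)
      rwa [sub_sub_cancel] at this) T₁ (fun a => by
      have := add_mem (sub_mem (c.id a _ p1).1 (c.id a _ p1).2) (c.piR a T₁)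
      change ∑ k, _ ∈ J
      convert this using 1
      simp only [_root_.sub_apply, eL, sub_mul, mul_sub, Finset.sum_sub_distrib, Finset.mul_sum,
        mul_assoc, one_mul, mul_one]
      abel)
  let G : ((A →L[ℂ] ℂ) →L[ℂ] A) →ₗ[ℂ] (Fin d → Fin d → Fin d → ℂ) :=
    { toFun := fun T m k r => l r ((LL (s m) T - RR (s m) T) (l k))
      map_add' := fun S T => by
        ext m k r
        simp only [map_add, _root_.sub_apply, _root_.add_apply, map_sub, Pi.add_apply]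
        ring
      map_smul' := fun a T => by
        ext m k r
        simp only [map_smul, _root_.sub_apply, _root_.smul_apply, map_sub, Pi.smul_apply,
          RingHom.id_apply, smul_sub] }
  classical
  choose T k1 _ k3 using fun n : ℕ => hC (Finset.univ.image s) (1 / (n + 1)) (by positivity)
  have t0 : Tendsto (fun n => G (T n)) atTop (𝓝 0) := by
    refine tendsto_pi_nhds.2 fun m => tendsto_pi_nhds.2 fun k => tendsto_pi_nhds.2 fun r => ?_
    have t1 : Tendsto (fun n => LL (s m) (T n) - RR (s m) (T n)) atTop (𝓝 0) :=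
      squeeze_zero_norm (fun n => (k3 n _ (by simp)).le) tendsto_one_div_add_atTop_nhds_zero_nat
    have t2 : Continuous fun S : (A →L[ℂ] ℂ) →L[ℂ] A => l r (S (l k)) := by fun_prop
    exact (t2.tendsto' 0 0 (by simp)).comp t1
  obtain ⟨ξ, hξ, e⟩ : G T₁ ∈ Y.map G := by
    refine (Y.map G).closed_of_finiteDimensional.mem_of_tendsto
      (f := fun n => G (T₁ - T n)) (b := atTop) ?_
      (Eventually.of_forall fun n => Submodule.mem_map_of_mem (k1 n))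
    simpa only [map_sub, sub_zero] using tendsto_const_nhds.sub t0
  have z : G (T₁ - ξ) = 0 := by rw [map_sub, e, sub_self]
  refine ⟨T₁ - ξ, ?_, fun a ψ hψ => ?_⟩
  · convert sub_mem p1 hξ using 1
    simp only [_root_.sub_apply, sub_mul, Finset.sum_sub_distrib]
    abel
  obtain ⟨T₀, hT⟩ : ∃ T₀, T₀ = T₁ - ξ := ⟨_, rfl⟩
  rw [← hT] at z ⊢
  have b1 : ∀ m, (LL (s m) T₀ - RR (s m) T₀) ψ ∈ J := fun m => by
    rw [c.exp hψ, map_sum]
    refine J.sum_mem fun k _ => ?_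
    rw [map_smul]
    refine J.smul_mem _ ?_
    have z' : ∀ r, l r ((LL (s m) T₀ - RR (s m) T₀) (l k)) = 0 := fun r =>
      congrFun (congrFun (congrFun z m) k) r
    simpa only [z', zero_smul, Finset.sum_const_zero, sub_zero] using
      c.sub ((LL (s m) T₀ - RR (s m) T₀) (l k))
  have b2 : ∀ j ∈ J, (LL j T₀ - RR j T₀) ψ ∈ J := fun j hj => by
    have : rm j ψ = 0 := ContinuousLinearMap.ext fun y => hψ _ (c.id y j hj).1
    rw [_root_.sub_apply, eL, eR, this, map_zero, sub_zero]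
    exact (c.id _ j hj).2
  have b3 := add_mem (b2 _ (c.sub a)) (J.sum_mem fun m (_ : m ∈ Finset.univ) =>
    J.smul_mem (l m a) (b1 m))
  convert b3 using 1
  simp only [map_sub, map_sum, map_smul, _root_.sub_apply, _root_.sum_apply, _root_.smul_apply,
    smul_sub, Finset.sum_sub_distrib]
  abel

end Pool.Agent.H.MP_086137_an
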