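import Pool.Agent.H.MP_086137_an.B

set_option autoImplicit false
set_option maxSynthPendingDepth 3
open Set Filter Topology

namespace Pool.Agent.H.MP_086137_an

variable {A : Type} [NormedRing A] [NormedAlgebra ℂ A]
variable {J : Submodule ℂ A} {d : ℕ} {s : Fin d → A} {l : Fin d → A →L[ℂ] ℂ}

theorem Co.diag [CompleteSpace A] (c : Co J s l) (h : BAC A) : ∃ T₀ : (A →L[ℂ] ℂ) →L[ℂ] A,
    ∑ k, T₀ (l k) * s k - 1 ∈ J ∧ ∃ C : ℝ, ∀ F : Finset A, ∀ ε : ℝ, 0 < ε →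
      ∃ T : (A →L[ℂ] ℂ) →L[ℂ] A, (∀ ψ, (∀ j ∈ J, ψ j = 0) → T₀ ψ - T ψ ∈ J) ∧
        (∀ a, ‖LL a T - RR a T‖ ≤ C * ‖a‖) ∧ ∀ a ∈ F, ‖LL a T - RR a T‖ < ε := by
  obtain ⟨T₀, h1, h2⟩ := c.sep h
  let Y : Submodule ℂ ((A →L[ℂ] ℂ) →L[ℂ] A) :=
    { carrier := {T | ∀ ψ : A →L[ℂ] ℂ, (∀ j ∈ J, ψ j = 0) → T ψ ∈ J}
      add_mem' := fun hS hT ψ hψ => add_mem (hS ψ hψ) (hT ψ hψ)
      zero_mem' := fun _ _ => zero_mem _
      smul_mem' := fun a _ hT ψ hψ => J.smul_mem a (hT ψ hψ) }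
  have hY : IsClosed (Y : Set ((A →L[ℂ] ℂ) →L[ℂ] A)) := by
    change IsClosed {T : (A →L[ℂ] ℂ) →L[ℂ] A | ∀ ψ : A →L[ℂ] ℂ, _}
    simp only [Set.ofPred_forall]
    exact isClosed_iInter fun ψ => isClosed_iInter fun _ => c.cl.preimage (by fun_prop)
  exact ⟨T₀, h1, app' h Y hY (fun a T hT ψ hψ => (c.id a _ (hT ψ hψ)).1)
    (fun a T hT ψ hψ => hT _ fun j hj => hψ _ (c.id a j hj).2) T₀ fun a => h2 a⟩

theorem net (P : A → A → ℝ) (Q : A → Prop) (h : ∀ F : Finset A, ∀ ε : ℝ, 0 < ε → ∃ e, Q e ∧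
    ∀ j ∈ F, j ∈ J → P e j ≤ ε) (h0 : ∀ e j, 0 ≤ P e j) : ∃ e : Finset A × ℕ → A,
      (∀ i, Q (e i)) ∧ ∀ j ∈ J, Tendsto (fun i => P (e i) j) atTop (𝓝 0) := by
  choose e h1 h2 using fun i : Finset A × ℕ => h i.1 (1 / (i.2 + 1)) (by positivity)
  refine ⟨e, h1, fun j hj => squeeze_zero' (Eventually.of_forall fun i => h0 _ _)
    ((eventually_ge_atTop ({j}, 0)).mono fun i hi => h2 i j (hi.1 (by simp)) hj)
    (tendsto_one_div_add_atTop_nhds_zero_nat.comp ?_)⟩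
  rw [← prod_atTop_atTop_eq]
  exact tendsto_snd

theorem tr0 (M : Matrix (Fin d) (Fin d) ℂ) (h : M * M = 0) : M.trace = 0 :=
  (Matrix.isNilpotent_trace_of_isNilpotent ⟨2, by rw [sq, h]⟩).eq_zero

theorem Co.lim (c : Co J s l) {K : ℝ} (f : ℕ → A) (f1 : ∀ n, ∀ j ∈ J, ‖j * f n‖ ≤ K * ‖j‖)
    (f2 : ∀ n : ℕ, (n : ℝ) < ‖f n‖) : ∃ (τ : A →L[ℂ] ℂ) (φ : ℕ → ℕ) (ω : ℕ → A →L[ℂ] ℂ),
      StrictMono φ ∧ (∀ j ∈ J, τ j = 0) ∧ (∀ n, ‖ω n‖ ≤ ‖f (φ n)‖⁻¹) ∧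
      (∀ n, ω n (f (φ n)) = 1) ∧ Tendsto (fun n => rm (f (φ n)) (ω n)) atTop (𝓝 τ) := by
  have p : ∀ n, 0 < ‖f n‖ := fun n => (Nat.cast_nonneg n).trans_lt (f2 n)
  choose g g1 g2 using fun n => exists_dual_vector'' ℂ (f n)
  obtain ⟨ω, w1, w2⟩ : ∃ ω : ℕ → A →L[ℂ] ℂ, (∀ n, ‖ω n‖ ≤ ‖f n‖⁻¹) ∧ ∀ n, ω n (f n) = 1 := by
    refine ⟨fun n => ((‖f n‖ : ℂ)⁻¹) • g n, fun n => ?_, fun n => ?_⟩
    · rw [norm_smul, norm_inv, Complex.norm_real, norm_norm]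
      exact mul_le_of_le_one_right (by positivity) (g1 n)
    · rw [_root_.smul_apply, g2, smul_eq_mul]
      exact inv_mul_cancel₀ (by exact_mod_cast (p n).ne')
  have bd : ∀ n, (fun k => ω n (s k * f n)) ∈ Metric.closedBall (0 : Fin d → ℂ) ‖s‖ := fun n => by
    rw [mem_closedBall_zero_iff, pi_norm_le_iff_of_nonneg (norm_nonneg _)]
    intro k
    refine ((ω n).le_of_opNorm_le_of_le (w1 n) (norm_mul_le _ _)).trans ?_
    rw [mul_comm, mul_assoc, mul_inv_cancel₀ (p n).ne', mul_one]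
    exact norm_le_pi_norm s k
  obtain ⟨t, -, φ, hφ, ht⟩ := tendsto_subseq_of_bounded Metric.isBounded_closedBall bd
  obtain ⟨P, hP⟩ : ∃ P : A →L[ℂ] A, ∀ y, P y = y - ∑ k, l k y • s k :=
    ⟨ContinuousLinearMap.id ℂ A - ∑ k, (l k).smulRight (s k), fun y => by simp⟩
  refine ⟨∑ k, t k • l k, φ, fun n => ω (φ n), hφ, fun j hj => by simp [c.van _ j hj],
    fun n => w1 _, fun n => w2 _, ?_⟩
  have e : ∀ n, rm (f n) (ω n) = ∑ k, ω n (s k * f n) • l k + (rm (f n) (ω n)).comp P := fun n => by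
    ext y
    simp [hP, rm_apply, sub_mul, Finset.sum_mul, mul_comm]
  have t1 : Tendsto (fun n => ∑ k, ω (φ n) (s k * f (φ n)) • l k) atTop (𝓝 (∑ k, t k • l k)) :=
    tendsto_finsetSum _ fun k _ => (tendsto_pi_nhds.1 ht k).smul_const _
  have t2 : Tendsto (fun n => (rm (f n) (ω n)).comp P) atTop (𝓝 0) := by
    have t3 : Tendsto (fun n => ‖f n‖⁻¹) atTop (𝓝 0) := tendsto_inv_atTop_zero.comp
      (tendsto_atTop_mono (fun n => (f2 n).le) tendsto_natCast_atTop_atTop)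
    refine squeeze_zero_norm (fun n => ?_) (by simpa using t3.mul_const (|K| * ‖P‖))
    refine ContinuousLinearMap.opNorm_le_bound _ (by positivity) fun y => ?_
    rw [ContinuousLinearMap.comp_apply, rm_apply, mul_assoc, mul_assoc]
    refine (ω n).le_of_opNorm_le_of_le (w1 n) ((f1 n _ (hP y ▸ c.sub y)).trans ?_)
    exact mul_le_mul (le_abs_self K) (P.le_opNorm y) (norm_nonneg _) (abs_nonneg K)
  simpa only [← e, add_zero, Function.comp_def] using t1.add (t2.comp hφ.tendsto_atTop)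

theorem Co.est (c : Co J s l) {K C : ℝ} (f : ℕ → A) (f0 : ∀ n, f n ∈ J) (ω : ℕ → A →L[ℂ] ℂ)
    (w1 : ∀ n, ‖ω n‖ ≤ ‖f n‖⁻¹) (w2 : Tendsto (fun n => ‖f n‖⁻¹) atTop (𝓝 0)) {τ : A →L[ℂ] ℂ}
    (ht : Tendsto (fun n => rm (f n) (ω n)) atTop (𝓝 τ)) (P : A →L[ℂ] A) (P1 : ∀ y, P y ∈ J)
    (P2 : ∀ j ∈ J, P j = j) (f1 : ∀ n, ∀ j ∈ J, ‖j * f n‖ ≤ K * ‖j‖) {e : A} (e0 : e ∈ J)
    (e1 : ∀ j ∈ J, ‖e * j‖ ≤ K * ‖j‖) (T : (A →L[ℂ] ℂ) →L[ℂ] A)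
    (hT : ∀ a, ‖LL a T - RR a T‖ ≤ C * ‖a‖) (x : A) :
    ‖e * P (T (τ.comp (ContinuousLinearMap.mul ℂ A x)))‖ ≤ |K| * (‖P‖ * (|C| * ‖x‖)) := by
  obtain ⟨m, hm⟩ : ∃ m, m = ContinuousLinearMap.mul ℂ A x := ⟨_, rfl⟩
  have m1 : ‖m‖ ≤ ‖x‖ := hm ▸ ContinuousLinearMap.opNorm_mul_apply_le ℂ A x
  have ct : Continuous fun ψ : A →L[ℂ] ℂ => ‖e * P (T (ψ.comp m))‖ := by fun_prop
  rw [← hm]
  refine le_of_tendsto_of_tendsto' ((ct.tendsto τ).comp ht)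
    (b := atTop) (g := fun n => ‖f n‖⁻¹ * (|K| * ‖e‖ * (‖T‖ * ‖x‖)) + |K| * (‖P‖ * (|C| * ‖x‖)))
    (by simpa using (w2.mul_const _).add_const _) fun n => ?_
  have q : ‖(ω n).comp m‖ ≤ ‖f n‖⁻¹ * ‖x‖ :=
    ((ω n).opNorm_comp_le m).trans (mul_le_mul (w1 n) m1 (norm_nonneg _) (by positivity))
  have e2 : T ((rm (f n) (ω n)).comp m) =
      f n * T ((ω n).comp m) - (LL (f n) T - RR (f n) T) ((ω n).comp m) := by
    rw [_root_.sub_apply, eL, eR, sub_sub_cancel]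
    congr 1
    ext y
    simp [hm, rm_apply, mul_assoc]
  rw [Function.comp, e2, map_sub, P2 _ (c.id _ _ (f0 n)).2, mul_sub, ← mul_assoc]
  refine (norm_sub_le _ _).trans (add_le_add ?_ ?_)
  · refine (norm_mul_le _ _).trans ((mul_le_mul ((f1 n e e0).trans (mul_le_mul_of_nonneg_right
      (le_abs_self K) (norm_nonneg _))) (T.le_of_opNorm_le_of_le le_rfl q) (norm_nonneg _)
      (by positivity)).trans_eq (by ring))
  · refine (e1 _ (P1 _)).trans (mul_le_mul (le_abs_self K) (P.le_of_opNorm_le_of_le le_rfl ?_)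
      (norm_nonneg _) (abs_nonneg K))
    refine (ContinuousLinearMap.le_of_opNorm_le_of_le _ ((hT _).trans (mul_le_mul_of_nonneg_right
      (le_abs_self C) (norm_nonneg _))) q).trans ?_
    rw [mul_assoc, ← mul_assoc ‖f n‖]
    exact mul_le_mul_of_nonneg_left (mul_le_of_le_one_left (norm_nonneg _) mul_inv_le_one)
      (abs_nonneg C)

end Pool.Agent.H.MP_086137_an
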