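import Pool.Agent.H.MP_086137_an.C

set_option autoImplicit false
set_option maxSynthPendingDepth 3
open Set Filter Topology

namespace Pool.Agent.H.MP_086137_an

variable {A : Type} [NormedRing A] [NormedAlgebra ℂ A]
variable {J : Submodule ℂ A} {d : ℕ} {s : Fin d → A} {l : Fin d → A →L[ℂ] ℂ}

theorem Co.bdd [CompleteSpace A] (c : Co J s l) (h : BAC A) :
    ∃ (e f : Finset A × ℕ → A) (M : ℝ), (∀ i, e i ∈ J ∧ f i ∈ J ∧ ‖e i‖ ≤ M ∧ ‖f i‖ ≤ M) ∧
      ∀ j ∈ J, Tendsto (fun i => ‖e i * j - j‖) atTop (𝓝 0) ∧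
        Tendsto (fun i => ‖j * f i - j‖) atTop (𝓝 0) := by
  classical
  obtain ⟨Q, hQ⟩ : ∃ Q : A →L[ℂ] A, ∀ y, Q y = ∑ k, l k y • s k :=
    ⟨∑ k, (l k).smulRight (s k), fun y => by simp⟩
  have Q1 : ∀ j ∈ J, Q j = 0 := fun j hj => by simp [hQ, c.van _ j hj]
  have Q2 : ∀ y, y - Q y ∈ J := fun y => hQ y ▸ c.sub y
  obtain ⟨K1, hK1⟩ := lai h J c.id c.cl Q Q1 Q2
  obtain ⟨T₀, t1, C, hC⟩ := c.diag h
  obtain ⟨S, hS⟩ : ∃ S : ℝ, S = ∑ k, ‖l k‖ * ‖s k‖ := ⟨_, rfl⟩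
  have S0 : 0 ≤ S := by rw [hS]; positivity
  obtain ⟨K, K0, Ke, Kf⟩ : ∃ K : ℝ, 0 ≤ K ∧ K1 ≤ K ∧ C * S + 1 ≤ K :=
    ⟨|K1| + |C * S + 1|, by positivity, by linarith [le_abs_self K1, abs_nonneg (C * S + 1)],
      by linarith [le_abs_self (C * S + 1), abs_nonneg K1]⟩
  have z : ∀ j ∈ J, ∀ ψ : A →L[ℂ] ℂ, (∀ j ∈ J, ψ j = 0) → rm j ψ = 0 := fun j hj ψ hψ =>
    ContinuousLinearMap.ext fun y => hψ _ (c.id y j hj).1
  obtain ⟨e, e1, e2⟩ := net (J := J) (fun e j => ‖e * j - j‖)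
    (fun e => e ∈ J ∧ ∀ j ∈ J, ‖e * j‖ ≤ K * ‖j‖) (fun F ε hε => by
      obtain ⟨e, a1, a2, a3⟩ := hK1 F ε hε
      exact ⟨e, ⟨a1, fun j hj => (a2 j hj).trans (mul_le_mul_of_nonneg_right Ke (norm_nonneg _))⟩,
        a3⟩) fun _ _ => norm_nonneg _
  obtain ⟨f, f1, f2⟩ := net (J := J) (fun f j => ‖j * f - j‖)
    (fun f => f ∈ J ∧ ∀ j ∈ J, ‖j * f‖ ≤ K * ‖j‖) (fun F ε hε => by
      obtain ⟨T, a1, a2, a3⟩ := hC F (ε / (S + 1)) (by positivity)
      have b : ∀ j ∈ J, ‖j * (1 - ∑ k, T (l k) * s k) - j‖ ≤ ‖LL j T - RR j T‖ * S :=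
        fun j hj => by
          rw [mul_sub, mul_one, sub_sub_cancel_left, norm_neg, Finset.mul_sum, hS, Finset.mul_sum]
          refine norm_sum_le_of_le _ fun k _ => ?_
          have : j * T (l k) = (LL j T - RR j T) (l k) := by
            rw [_root_.sub_apply, eL, eR, z j hj _ (c.van k), map_zero, sub_zero]
          rw [← mul_assoc, ← mul_assoc, this]
          exact (norm_mul_le _ _).trans (mul_le_mul_of_nonneg_right
            (ContinuousLinearMap.le_opNorm _ _) (norm_nonneg _))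
      refine ⟨1 - ∑ k, T (l k) * s k, ⟨?_, fun j hj => ?_⟩, fun j hF hj => (b j hj).trans ?_⟩
      · convert sub_mem (J.sum_mem fun k (_ : k ∈ Finset.univ) =>
          (c.id (s k) _ (a1 _ (c.van k))).2) t1 using 1
        simp only [sub_mul, Finset.sum_sub_distrib]
        abel
      · have b1 := (b j hj).trans (mul_le_mul_of_nonneg_right (a2 j) S0)
        have b2 := norm_add_le (j * (1 - ∑ k, T (l k) * s k) - j) j
        rw [sub_add_cancel] at b2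
        nlinarith [norm_nonneg j]
      · have b1 := a3 j hF
        rw [lt_div_iff₀ (by positivity)] at b1
        nlinarith [norm_nonneg (LL j T - RR j T)]) fun _ _ => norm_nonneg _
  have RL : ∀ y M, (∀ i, ‖e i * y‖ ≤ M) → ∀ i, ‖y * f i‖ ≤ K * M := fun y M hy i =>
    le_of_tendsto' (tendsto_iff_norm_sub_tendsto_zero.2 (e2 _ (c.id y _ (f1 i).1).1)).norm
      fun k => by
        rw [← mul_assoc]
        exact ((f1 i).2 _ (c.id y _ (e1 k).1).2).trans (mul_le_mul_of_nonneg_left (hy k) K0)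
  have LR : ∀ y M, (∀ i, ‖y * f i‖ ≤ M) → ∀ i, ‖e i * y‖ ≤ K * M := fun y M hy i =>
    le_of_tendsto' (tendsto_iff_norm_sub_tendsto_zero.2 (f2 _ (c.id y _ (e1 i).1).2)).norm
      fun k => by
        rw [mul_assoc]
        exact ((e1 i).2 _ (c.id y _ (f1 k).1).1).trans (mul_le_mul_of_nonneg_left (hy k) K0)
  suffices H : ∃ M, ∀ i, ‖f i‖ ≤ M by
    obtain ⟨M, hM⟩ := H
    have := LR 1 M (by simpa using hM)
    exact ⟨e, f, max (K * M) M, fun i => ⟨(e1 i).1, (f1 i).1,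
      le_max_of_le_left (by simpa using this i), le_max_of_le_right (hM i)⟩,
      fun j hj => ⟨e2 j hj, f2 j hj⟩⟩
  by_contra hn
  push Not at hn
  choose b hb using fun n : ℕ => hn n
  obtain ⟨τ, φ, ω, hφ, τ0, w1, w2, w3⟩ := c.lim (fun n => f (b n)) (fun n => (f1 _).2) hb
  have w4 : Tendsto (fun n => ‖f (b (φ n))‖⁻¹) atTop (𝓝 0) := tendsto_inv_atTop_zero.comp
    ((tendsto_atTop_mono (fun n => (hb n).le) tendsto_natCast_atTop_atTop).comp hφ.tendsto_atTop)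
  have w5 : ∀ y, Tendsto (fun n => ω n (y * f (b (φ n)))) atTop (𝓝 (τ y)) := fun y =>
    ((ContinuousLinearMap.apply ℂ ℂ y).continuous.tendsto τ).comp w3
  have τ1 : τ 1 = 1 := tendsto_nhds_unique (w5 1) (by simp [w2])
  have τ2 : ∀ y M, (∀ i, ‖e i * y‖ ≤ M) → τ y = 0 := fun y M hy =>
    tendsto_nhds_unique (w5 y) (squeeze_zero_norm (fun n => (ω n).le_of_opNorm_le_of_le (w1 n)
      (RL y M hy _)) (by simpa using w4.mul_const (K * M)))
  have key : ∀ x y, τ (T₀ (τ.comp (ContinuousLinearMap.mul ℂ A x)) * y) = 0 := fun x y => by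
    obtain ⟨ψ, hψ⟩ : ∃ ψ, ψ = τ.comp (ContinuousLinearMap.mul ℂ A x) := ⟨_, rfl⟩
    have ψ0 : ∀ j ∈ J, ψ j = 0 := fun j hj => by simpa [hψ] using τ0 _ (c.id x j hj).1
    obtain ⟨P, hP⟩ : ∃ P : A →L[ℂ] A, ∀ y, P y = y - Q y :=
      ⟨ContinuousLinearMap.id ℂ A - Q, fun _ => rfl⟩
    rw [← hψ]
    refine τ2 _ ((K * ‖P (T₀ ψ)‖ + (‖ψ‖ + |K| * (‖P‖ * (|C| * ‖x‖)))) * ‖y‖) fun i => ?_
    rw [← mul_assoc]
    refine (norm_mul_le _ _).trans (mul_le_mul_of_nonneg_right ?_ (norm_nonneg _))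
    obtain ⟨T, a1, a2, a3⟩ := hC {e i} 1 one_pos
    have k1 := c.est (fun n => f (b (φ n))) (fun n => (f1 _).1) ω w1 w4 w3 P
      (fun y => hP y ▸ Q2 y) (fun j hj => by rw [hP, Q1 j hj, sub_zero]) (fun n => (f1 _).2)
      (e1 i).1 (e1 i).2 T a2 x
    rw [← hψ] at k1
    have k2 : e i * T₀ ψ = e i * P (T₀ ψ) + ((LL (e i) T - RR (e i) T) ψ - e i * P (T ψ)) := by
      have k3 := Q1 _ (a1 ψ ψ0)
      rw [map_sub, sub_eq_zero] at k3
      rw [_root_.sub_apply, eL, eR, z _ (e1 i).1 _ ψ0, map_zero, hP, hP, k3]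
      noncomm_ring
    rw [k2]
    refine (norm_add_le _ _).trans (add_le_add ((e1 i).2 _ (hP _ ▸ Q2 _))
      ((norm_sub_le _ _).trans (add_le_add ?_ k1)))
    simpa using ContinuousLinearMap.le_of_opNorm_le _ (a3 _ (by simp)).le ψ
  have tr := tr0 (Matrix.of fun k m => τ (T₀ (l m) * s k)) (by
    ext r m
    have k1 := key (T₀ (l m)) (s r)
    rw [c.exp (ψ := τ.comp _) fun j hj => by simpa using τ0 _ (c.id _ j hj).1] at k1
    simpa [Matrix.mul_apply, Finset.sum_mul, mul_comm] using k1)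
  have k2 := τ0 _ t1
  rw [map_sub, map_sum, τ1] at k2
  simp only [Matrix.trace, Matrix.diag, Matrix.of_apply] at tr
  simp [tr] at k2

theorem main [CompleteSpace A] (h : BAC A) (J : Submodule ℂ A)
    (hI : ∀ a x : A, x ∈ J → a * x ∈ J ∧ x * a ∈ J) (hJ : IsClosed (J : Set A))
    (hf : FiniteDimensional ℂ (A ⧸ J)) :
    ∃ C : ℝ, ∀ F : Finset A, (∀ x ∈ F, x ∈ J) → ∀ ε : ℝ, 0 < ε →
      ∃ e ∈ J, ‖e‖ ≤ C ∧ ∀ x ∈ F, ‖e * x - x‖ < ε ∧ ‖x * e - x‖ < ε := by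
  classical
  obtain ⟨d, s, l, h1, h2⟩ := coords J hJ hf
  obtain ⟨e, f, M, k1, k2⟩ := Co.bdd ⟨hI, hJ, h1, h2⟩ h
  refine ⟨M + M + M * M, fun F hF ε hε => ?_⟩
  have ev : ∀ᶠ i in atTop, ∀ x ∈ F, ‖e i * x - x‖ + M * ‖e i * x - x‖ < ε ∧
      ‖x * f i - x‖ + ‖x * f i - x‖ * M < ε := (eventually_all_finset F).2 fun x hx =>
    ((((k2 x (hF x hx)).1.add ((k2 x (hF x hx)).1.const_mul M)).eventually
      (gt_mem_nhds (by simpa using hε))).and
      (((k2 x (hF x hx)).2.add ((k2 x (hF x hx)).2.mul_const M)).eventually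
      (gt_mem_nhds (by simpa using hε))))
  obtain ⟨i, hi⟩ := ev.exists
  obtain ⟨a1, a2, a3, a4⟩ := k1 i
  refine ⟨e i + f i - f i * e i, sub_mem (add_mem a1 a2) (hI _ _ a1).1, ?_, fun x hx => ⟨?_, ?_⟩⟩
  · exact (norm_sub_le _ _).trans (add_le_add ((norm_add_le _ _).trans (add_le_add a3 a4))
      ((norm_mul_le _ _).trans (mul_le_mul a4 a3 (norm_nonneg _) ((norm_nonneg _).trans a3))))
  · rw [show (e i + f i - f i * e i) * x - x = (e i * x - x) - f i * (e i * x - x) by noncomm_ring]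
    exact ((norm_sub_le _ _).trans (add_le_add_right ((norm_mul_le _ _).trans
      (mul_le_mul_of_nonneg_right a4 (norm_nonneg _))) _)).trans_lt (hi x hx).1
  · rw [show x * (e i + f i - f i * e i) - x = (x * f i - x) - (x * f i - x) * e i by noncomm_ring]
    exact ((norm_sub_le _ _).trans (add_le_add_right ((norm_mul_le _ _).trans
      (mul_le_mul_of_nonneg_left a3 (norm_nonneg _))) _)).trans_lt (hi x hx).2

end Pool.Agent.H.MP_086137_an
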